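import Pool.Agent.Helper91.PL.Defs

/-!
# The offsets of the words: a power bound for the number of words with a large offset

For a word `w` of length `t` the number `|Off w| / d ^ t` has a bounded moment of a small order `θ`: at the first digit `a`
it is at most `(m ^ nz a / d) |Off w'| / d ^ (t - 1) + B / d`, and the mean value of `(m ^ nz a / d) ^ θ` is less than `1`.
-/

set_option autoImplicit false

namespace Pool.Agent.Helper51.PR

open Finset Pool.Agent.Helper68.Moeller Pool.Agent.Helper52.Tao Pool.Agent.Helper91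

variable {d m : ℕ} {r : ℤ → ℤ}

/-- A small exponent for which the mean value of `(m ^ nz a / d) ^ θ` is less than `1`. -/
theorem exists_theta (hd : 2 ≤ d) (hdm : d < m) (hg : 0 < PL.gam d m) :
    ∃ θ lam : ℝ, 0 < θ ∧ θ ≤ 1 ∧ 0 < lam ∧ lam < 1 ∧
      (1 + ((d : ℝ) - 1) * (m : ℝ) ^ θ) * (d : ℝ) ^ (-θ) = d * lam := by
  have hd2 : (2 : ℝ) ≤ d := by exact_mod_cast hd
  have hd0 : (0 : ℝ) < d := by linarith
  have hm3 : (3 : ℝ) ≤ m := by
    have : 3 ≤ m := by omega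
    exact_mod_cast this
  have hm0 : (0 : ℝ) < m := by linarith
  have hdm' : (d : ℝ) < m := by exact_mod_cast hdm
  set L := Real.log m with hL
  set D := Real.log d with hD
  have hL1 : 1 ≤ L := by
    rw [hL, Real.le_log_iff_exp_le hm0]
    exact (Real.exp_one_lt_d9.le.trans (by norm_num)).trans hm3
  have hD0 : 0 < D := Real.log_pos (by linarith)
  have hDL : D ≤ L := Real.log_le_log hd0 hdm'.le
  have hgam : PL.gam d m = D - (1 - 1 / (d : ℝ)) * L := rfl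
  set g := PL.gam d m with hg'
  have h1d : 0 ≤ 1 - 1 / (d : ℝ) := by
    rw [sub_nonneg, div_le_one hd0]; linarith
  have h1d' : 1 - 1 / (d : ℝ) ≤ 1 := by
    have : 0 ≤ 1 / (d : ℝ) := by positivity
    linarith
  have hgL : g ≤ L := by
    rw [hgam]
    have : 0 ≤ (1 - 1 / (d : ℝ)) * L := mul_nonneg h1d (by linarith)
    linarith
  set θ := g / (2 * L ^ 2) with hθ
  have hL2 : 0 < 2 * L ^ 2 := by positivity
  have hθ0 : 0 < θ := div_pos hg hL2
  have hθL : θ * L ≤ 1 / 2 := by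
    rw [hθ, div_mul_eq_mul_div, div_le_iff₀ hL2]
    nlinarith
  have hθ1 : θ ≤ 1 := by nlinarith
  have hmθ : (m : ℝ) ^ θ = Real.exp (θ * L) := by
    rw [Real.rpow_def_of_pos hm0, mul_comm]
  have hdθ : (d : ℝ) ^ (-θ) = Real.exp (-(θ * D)) := by
    rw [Real.rpow_def_of_pos hd0]
    congr 1
    rw [← hD]; ring
  refine ⟨θ, (1 + ((d : ℝ) - 1) * (m : ℝ) ^ θ) * (d : ℝ) ^ (-θ) / d, hθ0, hθ1, ?_, ?_, ?_⟩
  · have : 0 ≤ ((d : ℝ) - 1) * (m : ℝ) ^ θ := mul_nonneg (by linarith) (Real.rpow_nonneg hm0.le _)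
    have h2 : 0 < (d : ℝ) ^ (-θ) := Real.rpow_pos_of_pos hd0 _
    exact div_pos (mul_pos (by linarith) h2) hd0
  · rw [div_lt_one hd0, hmθ, hdθ, Real.exp_neg, ← div_eq_mul_inv, div_lt_iff₀ (Real.exp_pos _)]
    have h1 : Real.exp (θ * L) ≤ 1 + θ * L + (θ * L) ^ 2 := by
      have h2 := Real.abs_exp_sub_one_sub_id_le (x := θ * L) (by
        rw [abs_of_nonneg (by positivity)]; linarith)
      have h3 := (abs_le.1 h2).2
      linarith
    have h2 : θ * D + 1 ≤ Real.exp (θ * D) := Real.add_one_le_exp _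
    have h3 : 1 + ((d : ℝ) - 1) * Real.exp (θ * L) ≤ 1 + ((d : ℝ) - 1) * (1 + θ * L + (θ * L) ^ 2) := by
      have := mul_le_mul_of_nonneg_left h1 (show (0 : ℝ) ≤ (d : ℝ) - 1 by linarith)
      linarith
    have h4 : (d : ℝ) * (θ * D + 1) ≤ d * Real.exp (θ * D) := mul_le_mul_of_nonneg_left h2 hd0.le
    refine lt_of_le_of_lt h3 (lt_of_lt_of_le ?_ h4)
    -- `d + (d-1)(θ L + θ² L²) < d θ D + d`
    have h5 : (d : ℝ) * g = d * D - (d - 1) * L := by
      rw [hgam]; field_simp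
    have h6 : θ * L ^ 2 = g / 2 := by
      rw [hθ]; field_simp
    have h7 : ((d : ℝ) - 1) * (θ * L ^ 2) < d * g := by
      rw [h6]; nlinarith
    nlinarith
  · field_simp

theorem exists_B (d : ℕ) (r : ℤ → ℤ) : ∃ B : ℕ, 1 ≤ B ∧ ∀ j : ℤ, 0 < j → j < (d : ℤ) → |r j| ≤ B := by
  refine ⟨1 + ∑ j ∈ Finset.range d, (r j).natAbs, by omega, ?_⟩
  intro j hj hjd
  have h1 : j.toNat ∈ Finset.range d := by
    rw [Finset.mem_range]; omega
  have h2 : (r ((j.toNat : ℕ) : ℤ)).natAbs ≤ ∑ j ∈ Finset.range d, (r j).natAbs :=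
    Finset.single_le_sum (f := fun j : ℕ => (r (j : ℤ)).natAbs) (fun _ _ => Nat.zero_le _) h1
  have h3 : ((j.toNat : ℕ) : ℤ) = j := Int.toNat_of_nonneg hj.le
  rw [h3] at h2
  push_cast
  have h4 : |r j| = ((r j).natAbs : ℤ) := Int.abs_eq_natAbs _
  rw [h4]
  have h5 : (((r j).natAbs : ℕ) : ℤ) ≤ ((∑ j ∈ Finset.range d, (r j).natAbs : ℕ) : ℤ) := by
    exact_mod_cast h2
  push_cast at h5 ⊢
  linarith

/-- The mean value over the first digit. -/
theorem sum_digit (hd : 2 ≤ d) (θ : ℝ) (hm : 0 < m) :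
    ∑ a ∈ range d, ((m : ℝ) ^ nz a / d) ^ θ = (1 + ((d : ℝ) - 1) * (m : ℝ) ^ θ) * (d : ℝ) ^ (-θ) := by
  have hd0 : (0 : ℝ) < d := by
    have : 0 < d := by omega
    exact_mod_cast this
  have hm0 : (0 : ℝ) < m := by exact_mod_cast hm
  obtain ⟨k, rfl⟩ : ∃ k, d = k + 1 := ⟨d - 1, by omega⟩
  rw [sum_range_succ']
  have h1 : ∀ a ∈ range k, ((m : ℝ) ^ nz (a + 1) / ((k + 1 : ℕ) : ℝ)) ^ θ = ((m : ℝ) / ((k + 1 : ℕ) : ℝ)) ^ θ := by
    intro a _
    rw [nz_of_ne (Nat.succ_ne_zero a), pow_one]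
  rw [sum_congr rfl h1, sum_const, card_range, nz_zero, pow_zero, nsmul_eq_mul,
    Real.div_rpow hm0.le hd0.le, Real.div_rpow zero_le_one hd0.le, Real.one_rpow, Real.rpow_neg hd0.le]
  push_cast
  ring

/-- **The moment of the offset.** -/
theorem off_moment (hd : 2 ≤ d) (hdm : d < m) (hg : 0 < PL.gam d m) :
    ∃ θ K : ℝ, 0 < θ ∧ θ ≤ 1 ∧ 0 < K ∧
      ∀ t : ℕ, ∑ w ∈ W d t, (|(Off d m r w : ℝ)| / (d : ℝ) ^ t) ^ θ ≤ K * (d : ℝ) ^ t := by
  obtain ⟨θ, lam, hθ0, hθ1, hlam0, hlam1, hlam⟩ := exists_theta hd hdm hg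
  obtain ⟨B, hB1, hB⟩ := exists_B d r
  have hd0 : (0 : ℝ) < d := by
    have : 0 < d := by omega
    exact_mod_cast this
  have hd1 : (1 : ℝ) ≤ d := by
    have : 1 ≤ d := by omega
    exact_mod_cast this
  have hm : 0 < m := by omega
  have hB0 : (0 : ℝ) < B := by
    have : 0 < B := by omega
    exact_mod_cast this
  have hBθ : 0 < (B : ℝ) ^ θ := Real.rpow_pos_of_pos hB0 _
  refine ⟨θ, (B : ℝ) ^ θ / (1 - lam), hθ0, hθ1, div_pos hBθ (by linarith), ?_⟩
  set K := (B : ℝ) ^ θ / (1 - lam) with hK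
  have hK0 : 0 < K := div_pos hBθ (by linarith)
  have hKeq : lam * K + (B : ℝ) ^ θ = K := by
    have h1 : K * (1 - lam) = (B : ℝ) ^ θ := div_mul_cancel₀ _ (by linarith)
    linarith
  intro t
  induction t with
  | zero =>
    rw [sum_W_zero]
    simp only [Off, Int.cast_zero, abs_zero, pow_zero, div_one, mul_one]
    rw [Real.zero_rpow hθ0.ne']
    exact hK0.le
  | succ t ih =>
    rw [sum_W_succ]
    have hstep : ∀ a ∈ range d, ∀ w ∈ W d t, (|(Off d m r (a :: w) : ℝ)| / (d : ℝ) ^ (t + 1)) ^ θ ≤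
        ((m : ℝ) ^ nz a / d) ^ θ * (|(Off d m r w : ℝ)| / (d : ℝ) ^ t) ^ θ + (B : ℝ) ^ θ := by
      intro a ha w hw
      have hlen : w.length = t := (mem_W.1 hw).1
      have h1 : |(Off d m r (a :: w) : ℝ)| / (d : ℝ) ^ (t + 1) ≤
          (m : ℝ) ^ nz a / d * (|(Off d m r w : ℝ)| / (d : ℝ) ^ t) + B := by
        have h2 : (Off d m r (a :: w) : ℝ) = (m : ℝ) ^ nz a * (Off d m r w : ℝ) + (d : ℝ) ^ t * (rr r a : ℝ) := by
          rw [← hlen]
          simp only [Off]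
          push_cast
          ring
        have h3 : |(rr r a : ℝ)| ≤ B := by
          have := abs_rr_le hB (mem_range.1 ha)
          exact_mod_cast this
        have h4 : |(Off d m r (a :: w) : ℝ)| ≤ (m : ℝ) ^ nz a * |(Off d m r w : ℝ)| + (d : ℝ) ^ t * B := by
          rw [h2]
          refine (abs_add_le _ _).trans ?_
          rw [abs_mul, abs_mul, abs_of_nonneg (show (0 : ℝ) ≤ (m : ℝ) ^ nz a by positivity),
            abs_of_nonneg (show (0 : ℝ) ≤ (d : ℝ) ^ t by positivity)]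
          have := mul_le_mul_of_nonneg_left h3 (show (0 : ℝ) ≤ (d : ℝ) ^ t by positivity)
          linarith
        have h5 : (d : ℝ) ^ t * B ≤ (d : ℝ) ^ (t + 1) * B := by
          rw [pow_succ]
          have : (d : ℝ) ^ t ≤ (d : ℝ) ^ t * d := le_mul_of_one_le_right (by positivity) hd1
          exact mul_le_mul_of_nonneg_right this hB0.le
        rw [div_le_iff₀ (by positivity)]
        refine h4.trans ?_
        have h6 : ((m : ℝ) ^ nz a / d * (|(Off d m r w : ℝ)| / (d : ℝ) ^ t) + B) * (d : ℝ) ^ (t + 1) =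
            (m : ℝ) ^ nz a * |(Off d m r w : ℝ)| + (d : ℝ) ^ (t + 1) * B := by
          field_simp
          ring
        rw [h6]
        linarith
      have h0 : 0 ≤ |(Off d m r (a :: w) : ℝ)| / (d : ℝ) ^ (t + 1) := by positivity
      have hx : 0 ≤ (m : ℝ) ^ nz a / d := by positivity
      have hy : 0 ≤ |(Off d m r w : ℝ)| / (d : ℝ) ^ t := by positivity
      refine (Real.rpow_le_rpow h0 h1 hθ0.le).trans ?_
      refine (Real.rpow_add_le_add_rpow (mul_nonneg hx hy) hB0.le hθ0.le hθ1).trans ?_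
      rw [Real.mul_rpow hx hy]
    calc ∑ a ∈ range d, ∑ w ∈ W d t, (|(Off d m r (a :: w) : ℝ)| / (d : ℝ) ^ (t + 1)) ^ θ
        ≤ ∑ a ∈ range d, ∑ w ∈ W d t, (((m : ℝ) ^ nz a / d) ^ θ * (|(Off d m r w : ℝ)| / (d : ℝ) ^ t) ^ θ +
          (B : ℝ) ^ θ) := sum_le_sum fun a ha => sum_le_sum fun w hw => hstep a ha w hw
      _ = (∑ a ∈ range d, ((m : ℝ) ^ nz a / d) ^ θ) * ∑ w ∈ W d t, (|(Off d m r w : ℝ)| / (d : ℝ) ^ t) ^ θ +
          (d : ℝ) ^ (t + 1) * (B : ℝ) ^ θ := by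
          rw [Finset.sum_mul]
          have h1 : ∀ a ∈ range d, ∑ w ∈ W d t, (((m : ℝ) ^ nz a / d) ^ θ * (|(Off d m r w : ℝ)| / (d : ℝ) ^ t) ^ θ +
              (B : ℝ) ^ θ) = ((m : ℝ) ^ nz a / d) ^ θ * ∑ w ∈ W d t, (|(Off d m r w : ℝ)| / (d : ℝ) ^ t) ^ θ +
                (d : ℝ) ^ t * (B : ℝ) ^ θ := by
            intro a _
            rw [sum_add_distrib, ← mul_sum, sum_const, card_W, nsmul_eq_mul]
            push_cast
            ring
          rw [sum_congr rfl h1, sum_add_distrib, sum_const, card_range, nsmul_eq_mul]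
          ring
      _ ≤ (d * lam) * (K * (d : ℝ) ^ t) + (d : ℝ) ^ (t + 1) * (B : ℝ) ^ θ := by
          rw [sum_digit hd θ hm, hlam]
          have := mul_le_mul_of_nonneg_left ih (show (0 : ℝ) ≤ d * lam by positivity)
          linarith
      _ = (lam * K + (B : ℝ) ^ θ) * (d : ℝ) ^ (t + 1) := by ring
      _ = K * (d : ℝ) ^ (t + 1) := by rw [hKeq]

open Classical in
/-- **The words with a large offset.** -/
theorem off_tail (hd : 2 ≤ d) (hdm : d < m) (hg : 0 < PL.gam d m) :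
    ∃ θ C : ℝ, 0 < θ ∧ θ ≤ 1 ∧ 0 < C ∧ ∀ (t : ℕ) (V : ℝ), 0 < V →
      (((W d t).filter (fun w => V * (d : ℝ) ^ t < |(Off d m r w : ℝ)|)).card : ℝ) ≤ C * V ^ (-θ) * (d : ℝ) ^ t := by
  obtain ⟨θ, K, hθ0, hθ1, hK, hmom⟩ := off_moment (r := r) hd hdm hg
  refine ⟨θ, K, hθ0, hθ1, hK, ?_⟩
  intro t V hV
  have hd0 : (0 : ℝ) < d := by
    have : 0 < d := by omega
    exact_mod_cast this
  have hVθ : 0 < V ^ θ := Real.rpow_pos_of_pos hV _
  have h1 : (((W d t).filter (fun w => V * (d : ℝ) ^ t < |(Off d m r w : ℝ)|)).card : ℝ) * V ^ θ ≤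
      ∑ w ∈ W d t, (|(Off d m r w : ℝ)| / (d : ℝ) ^ t) ^ θ := by
    calc (((W d t).filter (fun w => V * (d : ℝ) ^ t < |(Off d m r w : ℝ)|)).card : ℝ) * V ^ θ
        = ∑ w ∈ (W d t).filter (fun w => V * (d : ℝ) ^ t < |(Off d m r w : ℝ)|), V ^ θ := by
          rw [sum_const, nsmul_eq_mul]
      _ ≤ ∑ w ∈ (W d t).filter (fun w => V * (d : ℝ) ^ t < |(Off d m r w : ℝ)|), (|(Off d m r w : ℝ)| / (d : ℝ) ^ t) ^ θ := by
          refine sum_le_sum fun w hw => Real.rpow_le_rpow hV.le ?_ hθ0.le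
          rw [le_div_iff₀ (by positivity)]
          exact (mem_filter.1 hw).2.le
      _ ≤ _ := sum_le_sum_of_subset_of_nonneg (filter_subset _ _) fun w _ _ => by positivity
  have h2 := h1.trans (hmom t)
  rw [← le_div_iff₀ hVθ] at h2
  refine h2.trans (le_of_eq ?_)
  rw [Real.rpow_neg hV.le]
  field_simp

end Pool.Agent.Helper51.PR
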